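import Pool.Agent.H73Z.Sol.Fox

/-! Centralisers in free solvable groups, and an element of the derived term that survives
modulo its commutator with the whole free group. -/

set_option autoImplicit false
set_option linter.unusedSectionVars false

namespace Pool.Agent.H73Z.Sol

open Subgroup
open scoped commutatorElement

/-- an element of infinite order fixes no nonzero element of the integral group ring -/
lemma eq_zero_of_single_mul {P : Type} [Group P] (p : P) (hp : ∀ n : ℕ, p ^ n = 1 → n = 0)
    (a : MonoidAlgebra ℤ P) (h : MonoidAlgebra.single p 1 * a = a) : a = 0 := by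
  classical
  by_contra ha
  have hne : a.coeff ≠ 0 := fun h0 => ha (by
    ext x
    simp [h0])
  obtain ⟨q, hq⟩ := Finsupp.support_nonempty_iff.2 hne
  have hstep : ∀ x : P, a.coeff (p * x) = a.coeff x := by
    intro x
    conv_lhs => rw [← h]
    simp
  have hall : ∀ n : ℕ, p ^ n * q ∈ a.coeff.support := by
    intro n
    induction n with
    | zero => simpa using hq
    | succ n ih =>
      rw [Finsupp.mem_support_iff] at ih ⊢
      rw [pow_succ', mul_assoc, hstep]
      exact ih
  have hinj : Function.Injective (fun n : ℕ => p ^ n * q) := by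
    intro m n hmn
    have h1 : p ^ m = p ^ n := mul_right_cancel hmn
    rcases le_total m n with hle | hle
    · obtain ⟨k, rfl⟩ := Nat.exists_eq_add_of_le hle
      rw [pow_add] at h1
      have := hp k (by simpa using h1.symm)
      omega
    · obtain ⟨k, rfl⟩ := Nat.exists_eq_add_of_le hle
      rw [pow_add] at h1
      have := hp k (by simpa using h1)
      omega
  exact Set.infinite_of_injective_forall_mem hinj hall (a.coeff.support.finite_toSet)

variable {ι : Type} [Fintype ι] [DecidableEq ι]

/-- the exponent sum of a generator -/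
def expo (i : ι) : FreeGroup ι →* Multiplicative ℤ :=
  FreeGroup.lift fun j => Multiplicative.ofAdd (if j = i then 1 else 0)

lemma mem_commutator_of_chars {g : FreeGroup ι}
    (h : ∀ χ : FreeGroup ι →* Multiplicative ℤ, χ g = 1) : g ∈ commutator (FreeGroup ι) := by
  rw [← Abelianization.ker_of, MonoidHom.mem_ker]
  have : ∀ w : FreeGroup ι, Abelianization.of w =
      ∏ i, (Abelianization.of (FreeGroup.of i)) ^ (expo i w).toAdd := by
    intro w
    induction w using FreeGroup.induction_on with
    | C1 => simp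
    | of j =>
      rw [Finset.prod_eq_single j]
      · simp [expo]
      · intro i _ hi
        simp [expo, Ne.symm hi]
      · simp
    | inv_of j ih =>
      rw [map_inv, ih]
      simp
    | mul u w ihu ihw =>
      rw [map_mul, ihu, ihw, ← Finset.prod_mul_distrib]
      simp [zpow_add]
  rw [this]
  simp [h]

lemma char_eq_sum (χ : FreeGroup ι →* Multiplicative ℤ) (w : FreeGroup ι) :
    (χ w).toAdd = ∑ i, fox (1 : FreeGroup ι →* ℤ) w i * (χ (FreeGroup.of i)).toAdd := by
  induction w using FreeGroup.induction_on with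
  | C1 => simp [(fox_crossed (1 : FreeGroup ι →* ℤ)).one]
  | of j =>
    rw [Finset.sum_eq_single j]
    · simp
    · intro i _ hi
      simp [hi]
    · simp
  | inv_of j ih =>
    rw [(fox_crossed (1 : FreeGroup ι →* ℤ)).inv, map_inv, toAdd_inv, ih]
    simp
  | mul u w ihu ihw =>
    rw [fox_crossed (1 : FreeGroup ι →* ℤ) u w, map_mul, toAdd_mul, ihu, ihw,
      ← Finset.sum_add_distrib]
    simp [add_mul]

lemma fox_comm_of_commutator {Λ : Type} [Ring Λ] (e : FreeGroup ι →* Λ) {f g : FreeGroup ι}
    (h0 : fox e ⁅f, g⁆ = 0) (h1 : e ⁅f, g⁆ = 1) :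
    fox e f + e f • fox e g = fox e g + e g • fox e f := by
  rw [← fox_crossed e, ← fox_crossed e]
  have : f * g = ⁅f, g⁆ * (g * f) := by
    rw [commutatorElement_def]
    group
  rw [this, fox_crossed e, h0, h1]
  simp

lemma commutator_le_ker_char {G : Type} [Group G] (χ : G →* Multiplicative ℤ) :
    commutator G ≤ χ.ker := Abelianization.commutator_subset_ker χ

lemma derivedSeries_le_ker_char {G : Type} [Group G] (χ : G →* Multiplicative ℤ) (k : ℕ) :
    derivedSeries G (k + 1) ≤ χ.ker :=
  le_trans (le_trans (derivedSeries_antitone G (by omega : 1 ≤ k + 1))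
    (le_of_eq (derivedSeries_one G))) (commutator_le_ker_char χ)

/-- first step: the metabelian case -/
lemma cent_base {f g : FreeGroup ι} (χ : FreeGroup ι →* Multiplicative ℤ) (hf : χ f ≠ 1)
    (hg : χ g = 1) (h : ⁅f, g⁆ ∈ derivedSeries (FreeGroup ι) 2) :
    g ∈ commutator (FreeGroup ι) := by
  apply mem_commutator_of_chars
  intro χ'
  by_contra hχ'
  let ψ : FreeGroup ι →* Multiplicative ℤ := χ' ^ (χ f).toAdd * χ ^ (-(χ' f).toAdd)
  have hψf : ψ f = 1 := by
    apply Multiplicative.toAdd.injective
    simp [ψ, mul_comm]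
  have hψg : ∀ n : ℕ, ψ g ^ n = 1 → n = 0 := by
    intro n hn
    have := congrArg Multiplicative.toAdd hn
    simp [ψ, hg] at this
    rcases this with h1 | h1 | h1
    · exact h1
    · exact absurd h1 hf
    · exact absurd h1 hχ'
  let e : FreeGroup ι →* MonoidAlgebra ℤ (Multiplicative ℤ) := (MonoidAlgebra.of ℤ _).comp ψ
  have he : ∀ s ∈ commutator (FreeGroup ι), e s = 1 := by
    intro s hs
    have : ψ s = 1 := commutator_le_ker_char ψ hs
    simp [e, this, MonoidAlgebra.one_def]
  have h0 : fox e ⁅f, g⁆ = 0 := fox_eq_zero_of_mem_commutator e _ he (by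
    simpa [derivedSeries_succ, commutator_def] using h)
  have h1 : e ⁅f, g⁆ = 1 := he _ (commutator_mem_commutator (mem_top _) (mem_top _))
  have h2 := fox_comm_of_commutator e h0 h1
  have hef : e f = 1 := by simp [e, hψf, MonoidAlgebra.one_def]
  rw [hef, one_smul, add_comm, add_right_inj] at h2
  have h3 : ∀ i, fox e f i = 0 := by
    intro i
    apply eq_zero_of_single_mul (ψ g) hψg
    have := congrFun h2 i
    simpa [e] using this.symm
  let aug : MonoidAlgebra ℤ (Multiplicative ℤ) →+* ℤ :=
    (MonoidAlgebra.lift ℤ ℤ (Multiplicative ℤ) 1).toRingHom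
  have haug : (aug : MonoidAlgebra ℤ (Multiplicative ℤ) →* ℤ).comp e = 1 := by
    ext i
    simp [aug, e]
  have h4 : ∀ i, fox (1 : FreeGroup ι →* ℤ) f i = 0 := by
    intro i
    rw [← haug, fox_map, h3, map_zero]
  apply hf
  apply Multiplicative.toAdd.injective
  rw [char_eq_sum]
  simp [h4]

/-- inductive step -/
lemma cent_step {f g : FreeGroup ι} (χ : FreeGroup ι →* Multiplicative ℤ) (hf : χ f ≠ 1)
    (S : Subgroup (FreeGroup ι)) [S.Normal] (hS : S ≤ χ.ker) (hg : g ∈ S)
    (h : ⁅f, g⁆ ∈ ⁅S, S⁆) : g ∈ ⁅S, S⁆ := by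
  have he : ∀ s ∈ S, eQ S s = 1 := by
    intro s hs
    rw [eQ_apply, (QuotientGroup.eq_one_iff s).2 hs]
    rfl
  have h0 : fox (eQ S) ⁅f, g⁆ = 0 := fox_eq_zero_of_mem_commutator _ _ he h
  have h1 : eQ S ⁅f, g⁆ = 1 := he _ (commutator_le_left _ _ h)
  have h2 := fox_comm_of_commutator (eQ S) h0 h1
  rw [he g hg, one_smul, add_comm (fox (eQ S) g), add_right_inj] at h2
  apply magnus S hg
  funext i
  apply eq_zero_of_single_mul (f : FreeGroup ι ⧸ S)
  · intro n hn
    rw [← QuotientGroup.mk_pow, QuotientGroup.eq_one_iff] at hn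
    have h5 : χ (f ^ n) = 1 := hS hn
    have := congrArg Multiplicative.toAdd h5
    simp at this
    rcases this with h1 | h1
    · exact h1
    · exact absurd h1 hf
  · have := congrFun h2 i
    simpa [eQ_apply] using this

/-- the centraliser lemma in the free solvable group of derived length at least two -/
lemma cent {f g : FreeGroup ι} (χ : FreeGroup ι →* Multiplicative ℤ) (hf : χ f ≠ 1)
    (hg : χ g = 1) (k : ℕ) (h : ⁅f, g⁆ ∈ derivedSeries (FreeGroup ι) (k + 2)) :
    g ∈ derivedSeries (FreeGroup ι) (k + 2) := by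
  induction k with
  | zero =>
    have h1 := cent_base χ hf hg h
    rw [← derivedSeries_one] at h1
    have := derivedSeries_normal (FreeGroup ι) 1
    exact cent_step χ hf _ (derivedSeries_le_ker_char χ 0) h1 h
  | succ k ih =>
    have h1 := ih (derivedSeries_antitone _ (by omega) h)
    have := derivedSeries_normal (FreeGroup ι) (k + 2)
    exact cent_step χ hf _ (derivedSeries_le_ker_char χ (k + 1)) h1 h

end Pool.Agent.H73Z.Sol
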