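import Mathlib

/-! Fox calculus over an arbitrary coefficient ring, the Magnus criterion and a centraliser lemma
for free solvable groups. -/

set_option autoImplicit false
set_option linter.unusedSectionVars false

namespace Pool.Agent.H73Z.Sol

open Subgroup
open scoped commutatorElement

/-- the affine group attached to a multiplicative map from a group to a ring -/
@[ext] structure Aff (ι : Type) {G Λ : Type} [Group G] [Ring Λ] (e : G →* Λ) where
  a : ι → Λ
  g : G

namespace Aff
variable {ι G Λ : Type} [Group G] [Ring Λ] {e : G →* Λ}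

instance : Mul (Aff ι e) := ⟨fun x y => ⟨x.a + e x.g • y.a, x.g * y.g⟩⟩
instance : One (Aff ι e) := ⟨⟨0, 1⟩⟩
instance : Inv (Aff ι e) := ⟨fun x => ⟨-(e x.g⁻¹ • x.a), x.g⁻¹⟩⟩

@[simp] lemma mul_a (x y : Aff ι e) : (x * y).a = x.a + e x.g • y.a := rfl
@[simp] lemma mul_g (x y : Aff ι e) : (x * y).g = x.g * y.g := rfl
@[simp] lemma one_a : (1 : Aff ι e).a = 0 := rfl
@[simp] lemma one_g : (1 : Aff ι e).g = 1 := rfl
@[simp] lemma inv_a (x : Aff ι e) : x⁻¹.a = -(e x.g⁻¹ • x.a) := rfl
@[simp] lemma inv_g (x : Aff ι e) : x⁻¹.g = x.g⁻¹ := rfl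

instance : Group (Aff ι e) := Group.ofLeftAxioms
  (fun x y z => by
    ext1
    · simp [mul_smul, add_assoc]
    · simp [mul_assoc])
  (fun x => by ext1 <;> simp)
  (fun x => by ext1 <;> simp)

/-- projection to the group -/
def proj : Aff ι e →* G where
  toFun x := x.g
  map_one' := rfl
  map_mul' _ _ := rfl

end Aff

/-- crossed homomorphisms -/
def Crossed {ι G Λ : Type} [Group G] [Ring Λ] (e : G →* Λ) (D : G → ι → Λ) : Prop :=
  ∀ g h, D (g * h) = D g + e g • D h

namespace Crossed
variable {ι G Λ : Type} [Group G] [Ring Λ] {e : G →* Λ} {D : G → ι → Λ}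

lemma one (h : Crossed e D) : D 1 = 0 := by
  have := h 1 1
  simpa using this

lemma inv (h : Crossed e D) (g : G) : D g⁻¹ = -(e g⁻¹ • D g) := by
  have h1 := h g⁻¹ g
  rw [inv_mul_cancel, h.one] at h1
  exact eq_neg_of_add_eq_zero_left h1.symm

/-- the equaliser of two crossed homomorphisms -/
def eqLocus {D' : G → ι → Λ} (h : Crossed e D) (h' : Crossed e D') : Subgroup G where
  carrier := {g | D g = D' g}
  one_mem' := by simp [h.one, h'.one]
  mul_mem' := by
    intro a b ha hb
    simp only [Set.mem_ofPred_eq] at *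
    rw [h, h', ha, hb]
  inv_mem' := by
    intro a ha
    simp only [Set.mem_ofPred_eq] at *
    rw [h.inv, h'.inv, ha]

lemma zero : Crossed e (fun _ : G => (0 : ι → Λ)) := by
  intro g h
  simp

lemma ext_of_closure {D' : G → ι → Λ} (h : Crossed e D) (h' : Crossed e D') {T : Set G}
    (hT : closure T = ⊤) (hx : ∀ t ∈ T, D t = D' t) (g : G) : D g = D' g := by
  have : closure T ≤ eqLocus h h' := (closure_le _).2 hx
  exact this (hT ▸ mem_top g)

lemma commutator (h : Crossed e D) (a b : G) :
    D ⁅a, b⁆ = (1 - e (a * b * a⁻¹)) • D a + (e a - e ⁅a, b⁆) • D b := by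
  rw [commutatorElement_def, h, h, h, h.inv, h.inv]
  simp only [smul_neg, smul_smul, ← map_mul, sub_smul, one_smul]
  abel

end Crossed

section Fox
variable {ι Λ : Type} [DecidableEq ι] [Ring Λ]

/-- the lift to the affine group -/
def foxHom (e : FreeGroup ι →* Λ) : FreeGroup ι →* Aff ι e :=
  FreeGroup.lift fun i => ⟨Pi.single i 1, FreeGroup.of i⟩

lemma foxHom_g (e : FreeGroup ι →* Λ) (w : FreeGroup ι) : (foxHom e w).g = w := by
  have : Aff.proj.comp (foxHom e) = MonoidHom.id _ := by
    ext i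
    simp [foxHom, Aff.proj]
  exact DFunLike.congr_fun this w

/-- the vector of Fox derivatives -/
def fox (e : FreeGroup ι →* Λ) (w : FreeGroup ι) : ι → Λ := (foxHom e w).a

lemma fox_crossed (e : FreeGroup ι →* Λ) : Crossed e (fox e) := by
  intro g h
  simp [fox, foxHom_g]

@[simp] lemma fox_of (e : FreeGroup ι →* Λ) (i : ι) :
    fox e (FreeGroup.of i) = Pi.single i 1 := by
  simp [fox, foxHom]

lemma closure_of : closure (Set.range (FreeGroup.of : ι → FreeGroup ι)) = ⊤ :=
  FreeGroup.closure_range_of ι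

lemma fox_map {Λ' : Type} [Ring Λ'] (e : FreeGroup ι →* Λ) (f : Λ →+* Λ') (w : FreeGroup ι)
    (j : ι) : fox ((f : Λ →* Λ').comp e) w j = f (fox e w j) := by
  have h2 : Crossed ((f : Λ →* Λ').comp e) (fun w j => f (fox e w j)) := by
    intro g h
    funext j
    simp [fox_crossed e g h]
  have := (fox_crossed _).ext_of_closure h2 closure_of (by
    rintro _ ⟨i, rfl⟩
    funext j
    simp [Pi.single_apply, apply_ite f]) w
  exact congrFun this j

/-- Fox derivatives vanish on the commutator subgroup of a subgroup killed by `e` -/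
lemma fox_eq_zero_of_mem_commutator (e : FreeGroup ι →* Λ) (S : Subgroup (FreeGroup ι))
    [S.Normal] (hS : ∀ s ∈ S, e s = 1) {w : FreeGroup ι} (hw : w ∈ ⁅S, S⁆) : fox e w = 0 := by
  have : ⁅S, S⁆ ≤ (fox_crossed e).eqLocus Crossed.zero := by
    rw [commutator_le]
    intro a ha b hb
    change fox e ⁅a, b⁆ = 0
    rw [(fox_crossed e).commutator]
    have h1 : e (a * b * a⁻¹) = 1 := hS _ (S.mul_mem (S.mul_mem ha hb) (S.inv_mem ha))
    have h2 : e ⁅a, b⁆ = 1 := hS _ (by
      rw [commutatorElement_def]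
      exact S.mul_mem (S.mul_mem (S.mul_mem ha hb) (S.inv_mem ha)) (S.inv_mem hb))
    rw [h1, h2, hS a ha]
    simp
  exact this hw

end Fox

section Magnus
variable {ι : Type} [Fintype ι] [DecidableEq ι]

/-- the map from the free group to the group ring of a quotient -/
noncomputable def eQ (S : Subgroup (FreeGroup ι)) [S.Normal] :
    FreeGroup ι →* MonoidAlgebra ℤ (FreeGroup ι ⧸ S) :=
  (MonoidAlgebra.of ℤ _).comp (QuotientGroup.mk' S)

lemma eQ_apply (S : Subgroup (FreeGroup ι)) [S.Normal] (w : FreeGroup ι) :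
    eQ S w = MonoidAlgebra.single (w : FreeGroup ι ⧸ S) 1 := rfl

/-- the Schreier element attached to a coset and a group element -/
noncomputable def sch (S : Subgroup (FreeGroup ι)) [S.Normal] (p : FreeGroup ι ⧸ S)
    (w : FreeGroup ι) : S :=
  ⟨p.out * w * ((p * (w : FreeGroup ι ⧸ S)).out)⁻¹, by
    rw [← QuotientGroup.eq_one_iff]
    simp⟩

lemma sch_mul (S : Subgroup (FreeGroup ι)) [S.Normal] (p : FreeGroup ι ⧸ S)
    (u w : FreeGroup ι) : sch S p (u * w) = sch S p u * sch S (p * u) w := by
  ext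
  simp [sch, mul_assoc]

/-- the left inverse of the Magnus map -/
noncomputable def magInv (S : Subgroup (FreeGroup ι)) [S.Normal] (i : ι) :
    MonoidAlgebra ℤ (FreeGroup ι ⧸ S) →ₗ[ℤ] Additive (Abelianization S) :=
  (Finsupp.linearCombination ℤ
    (fun p => Additive.ofMul (Abelianization.of (sch S p (FreeGroup.of i))))).comp
    (MonoidAlgebra.coeffLinearEquiv ℤ).toLinearMap

lemma magInv_single (S : Subgroup (FreeGroup ι)) [S.Normal] (i : ι) (p : FreeGroup ι ⧸ S) :
    magInv S i (MonoidAlgebra.single p 1) =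
      Additive.ofMul (Abelianization.of (sch S p (FreeGroup.of i))) := by
  simp [magInv]

lemma magInv_fox (S : Subgroup (FreeGroup ι)) [S.Normal] (w : FreeGroup ι) :
    ∀ p : FreeGroup ι ⧸ S, ∑ i, magInv S i (MonoidAlgebra.single p 1 * fox (eQ S) w i) =
      Additive.ofMul (Abelianization.of (sch S p w)) := by
  have hmul : ∀ u w : FreeGroup ι, ∀ p : FreeGroup ι ⧸ S,
      ∑ i, magInv S i (MonoidAlgebra.single p 1 * fox (eQ S) (u * w) i) =
      ∑ i, magInv S i (MonoidAlgebra.single p 1 * fox (eQ S) u i) +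
      ∑ i, magInv S i (MonoidAlgebra.single (p * u) 1 * fox (eQ S) w i) := by
    intro u w p
    rw [← Finset.sum_add_distrib]
    refine Finset.sum_congr rfl fun i _ => ?_
    rw [fox_crossed (eQ S) u w, ← map_add]
    congr 1
    simp only [Pi.add_apply, Pi.smul_apply, smul_eq_mul, mul_add, eQ_apply, ← mul_assoc,
      MonoidAlgebra.single_mul_single, mul_one]
  have hone : ∀ p : FreeGroup ι ⧸ S, sch S p 1 = 1 := by
    intro p
    ext
    simp [sch]
  induction w using FreeGroup.induction_on with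
  | C1 =>
    intro p
    simp [(fox_crossed (eQ S)).one, hone]
  | of i =>
    intro p
    rw [Finset.sum_eq_single i]
    · simp [magInv_single]
    · intro j _ hj
      simp [hj]
    · simp
  | inv_of i ih =>
    intro p
    have h1 := hmul (FreeGroup.of i)⁻¹ (FreeGroup.of i) p
    have h2 := sch_mul S p (FreeGroup.of i)⁻¹ (FreeGroup.of i)
    rw [inv_mul_cancel] at h1 h2
    rw [ih] at h1
    simp only [(fox_crossed (eQ S)).one, Pi.zero_apply, mul_zero, map_zero,
      Finset.sum_const_zero] at h1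
    rw [hone] at h2
    rw [eq_neg_of_add_eq_zero_left h1.symm, eq_inv_of_mul_eq_one_left h2.symm]
    simp
  | mul u w ihu ihw =>
    intro p
    rw [hmul, ihu, ihw, sch_mul]
    simp

/-- Magnus: an element of `S` with vanishing Fox derivatives in the group ring of `F/S` lies in
the commutator subgroup of `S` -/
lemma magnus (S : Subgroup (FreeGroup ι)) [S.Normal] {w : FreeGroup ι} (hw : w ∈ S)
    (h0 : fox (eQ S) w = 0) : w ∈ ⁅S, S⁆ := by
  have h := magInv_fox S w 1
  simp only [h0, Pi.zero_apply, mul_zero, map_zero, Finset.sum_const_zero] at h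
  have h1 : Abelianization.of (sch S 1 w) = 1 := by
    have := congrArg Additive.toMul h
    simpa using this.symm
  have h2 : sch S 1 w ∈ commutator S := by
    rw [← Abelianization.ker_of]
    exact h1
  have h3 : ((sch S 1 w : S) : FreeGroup ι) ∈ ⁅S, S⁆ := by
    have : (commutator S).map S.subtype = ⁅S, S⁆ := by
      rw [commutator_def, map_commutator, ← MonoidHom.range_eq_map, S.range_subtype]
    rw [← this]
    exact ⟨_, h2, rfl⟩
  have h4 : (w : FreeGroup ι ⧸ S) = 1 := (QuotientGroup.eq_one_iff w).2 hw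
  simp only [sch, h4, mul_one] at h3
  have := (inferInstance : (⁅S, S⁆ : Subgroup _).Normal).conj_mem _ h3
    ((1 : FreeGroup ι ⧸ S).out)⁻¹
  simpa [mul_assoc] using this

end Magnus

end Pool.Agent.H73Z.Sol
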