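import Pool.Agent.H73Z.Sol.Trace

/-! The automorphism group of a free solvable group of rank at least three and derived length at
least three is not finitely generated. -/

set_option autoImplicit false
set_option linter.unusedSectionVars false

namespace Pool.Agent.H73Z.Sol

open Subgroup
open scoped commutatorElement

section
variable {ι : Type} [Fintype ι] [DecidableEq ι]

lemma fox_vanish {G Λ : Type} [Group G] [Ring Λ] {R S : Subgroup G} [hR : R.Normal] [S.Normal]
    {e : G →* Λ} (h : IsModel R S e) (π : FreeGroup ι →* G) (S' : Subgroup (FreeGroup ι))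
    [S'.Normal] (hS' : ∀ s ∈ S', π s ∈ S) (hR' : ∀ r ∈ ⁅S', S'⁆, π r ∈ R)
    {w : FreeGroup ι} (hw : w ∈ ⁅⁅S', S'⁆, ⁅S', S'⁆⁆) : fox (e.comp π) w = 0 := by
  have hc := fox_crossed (e.comp π)
  let K : Subgroup (FreeGroup ι) :=
    { carrier := {w | ∀ j, ∀ r ∈ R, (1 - e r) * fox (e.comp π) w j = 0}
      one_mem' := by
        intro j r _
        simp [hc.one]
      mul_mem' := by
        intro a b ha hb j r hr
        rw [hc a b]
        have h1 := hb j _ (hR.conj_mem r hr (π a)⁻¹)
        have h2 : (1 - e r) * e (π a) = e (π a) * (1 - e ((π a)⁻¹ * r * (π a)⁻¹⁻¹)) := by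
          simp [mul_sub, sub_mul, ← map_mul, ← mul_assoc]
        simp only [Pi.add_apply, Pi.smul_apply, smul_eq_mul, mul_add, ha j r hr, zero_add,
          MonoidHom.comp_apply]
        rw [← mul_assoc, h2, mul_assoc, h1, mul_zero]
      inv_mem' := by
        intro a ha j r hr
        rw [hc.inv]
        have h1 := ha j _ (hR.conj_mem r hr (π a))
        have h2 : (1 - e r) * e (π a⁻¹) = e (π a⁻¹) * (1 - e (π a * r * (π a)⁻¹)) := by
          simp [mul_sub, sub_mul, ← map_mul, ← mul_assoc]
        simp only [Pi.neg_apply, Pi.smul_apply, smul_eq_mul, mul_neg, MonoidHom.comp_apply]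
        rw [← mul_assoc, h2, mul_assoc, h1, mul_zero, neg_zero] }
  have hrel : ∀ r ∈ R, ∀ s ∈ S', (1 - e r) * (1 - e (π s)) = 0 := by
    intro r hr s hs
    simpa using h.sandwich hr (hS' s hs) 1
  have hK : ⁅S', S'⁆ ≤ K := by
    rw [commutator_le]
    intro a ha b hb j r hr
    rw [hc.commutator]
    have h1 := hrel r hr _ (S'.mul_mem (S'.mul_mem ha hb) (S'.inv_mem ha))
    have h2 := hrel r hr _ ha
    have h3 := hrel r hr _ (commutator_le_left S' S' (commutator_mem_commutator ha hb))
    have h4 : e (π a) - e (π ⁅a, b⁆) = (1 - e (π ⁅a, b⁆)) - (1 - e (π a)) := by abel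
    simp only [Pi.add_apply, Pi.smul_apply, smul_eq_mul, mul_add, MonoidHom.comp_apply]
    rw [h4, ← mul_assoc, ← mul_assoc, h1, mul_sub (1 - e r) (1 - e (π ⁅a, b⁆)), h2, h3]
    simp
  have : ⁅⁅S', S'⁆, ⁅S', S'⁆⁆ ≤ hc.eqLocus Crossed.zero := by
    rw [commutator_le]
    intro a ha b hb
    change fox (e.comp π) ⁅a, b⁆ = 0
    rw [hc.commutator]
    funext j
    have h1 := hK ha j _ (hR' _ (mul_mem (mul_mem ha hb) (inv_mem ha)))
    have h2 := hK hb j _ (hR' _ ha)
    have h3 := hK hb j _ (hR' _ (commutator_le_left _ _ (commutator_mem_commutator ha hb)))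
    have h4 : e (π a) - e (π ⁅a, b⁆) = (1 - e (π ⁅a, b⁆)) - (1 - e (π a)) := by abel
    simp only [Pi.add_apply, Pi.smul_apply, smul_eq_mul, MonoidHom.comp_apply]
    rw [h4, h1, sub_mul (1 - e (π ⁅a, b⁆)), h2, h3]
    simp
  exact this hw

theorem main {a b c : ι} (hab : b ≠ a) (hac : c ≠ a) (hbc : c ≠ b) (k : ℕ)
    [(derivedSeries (FreeGroup ι) (k + 3)).Normal] :
    ¬ Group.FG (MulAut (FreeGroup ι ⧸ derivedSeries (FreeGroup ι) (k + 3))) := by
  classical
  set N := derivedSeries (FreeGroup ι) (k + 3) with hN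
  let G := FreeGroup ι ⧸ N
  let π : FreeGroup ι →* G := QuotientGroup.mk' N
  have hπ : Function.Surjective π := QuotientGroup.mk'_surjective N
  have hker : π.ker = N := QuotientGroup.ker_mk' N
  have hmap : ∀ j, (derivedSeries (FreeGroup ι) j).map π = derivedSeries G j :=
    fun j => map_derivedSeries_eq hπ j
  let R := derivedSeries G (k + 2)
  let S := derivedSeries G (k + 1)
  have : R.Normal := derivedSeries_normal G _
  have : S.Normal := derivedSeries_normal G _
  have : (derivedSeries (FreeGroup ι) (k + 1)).Normal := derivedSeries_normal _ _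
  have : (derivedSeries (FreeGroup ι) (k + 2)).Normal := derivedSeries_normal _ _
  have hRS : R ≤ S := derivedSeries_antitone G (by omega)
  have hbot : derivedSeries G (k + 3) = ⊥ := by
    rw [← hmap, Subgroup.map_eq_bot_iff, hker]
  have hmemR : ∀ w, π w ∈ R ↔ w ∈ derivedSeries (FreeGroup ι) (k + 2) := by
    intro w
    change π w ∈ derivedSeries G (k + 2) ↔ _
    rw [← hmap, ← mem_comap, comap_map_eq, hker,
      sup_eq_left.2 (derivedSeries_antitone _ (by omega))]
  obtain ⟨Λ, _, e, hM⟩ := exists_model R S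
  have hvan : ∀ w ∈ N, fox (e.comp π) w = 0 := by
    intro w hw
    refine fox_vanish hM π (derivedSeries (FreeGroup ι) (k + 1)) ?_ ?_ hw
    · intro s hs
      exact map_derivedSeries_le_derivedSeries π _ ⟨s, hs, rfl⟩
    · intro r hr
      exact (hmemR r).2 hr
  let D : G → ι → Λ := fun g => fox (e.comp π) g.out
  have hD : ∀ w, D (π w) = fox (e.comp π) w := by
    intro w
    obtain ⟨h, hh⟩ := QuotientGroup.mk_out_eq_mul N w
    change fox (e.comp π) (QuotientGroup.mk w : G).out = _
    rw [hh, fox_crossed, hvan _ h.2]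
    simp
  have hchar : ∀ χ : G →* Multiplicative ℤ, S ≤ χ.ker := fun χ => derivedSeries_le_ker_char χ k
  choose δ hδ1 hδ2 using fun χ : G →* Multiplicative ℤ =>
    hM.exists_delta χ (hRS.trans (hchar χ)) (hchar χ)
  choose f hf using fun φ : MulAut G => hM.exists_map φ.toMonoidHom
    (fun r hr => map_derivedSeries_le_derivedSeries φ.toMonoidHom _ ⟨r, hr, rfl⟩)
    (fun r hr => map_derivedSeries_le_derivedSeries φ.toMonoidHom _ ⟨r, hr, rfl⟩)
  let x : ι → G := fun i => π (FreeGroup.of i)
  let P : Setup G Λ ι :=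
    { R := R, S := S, e := e, x := x, D := D, δ := δ, f := f, model := hM
      gen := by
        have h1 := congrArg (map π) (closure_of (ι := ι))
        rw [MonoidHom.map_closure, map_top_of_surjective _ hπ, ← Set.range_comp] at h1
        exact h1
      crossed := by
        intro g h
        obtain ⟨g, rfl⟩ := hπ g
        obtain ⟨h, rfl⟩ := hπ h
        rw [← map_mul, hD, hD, hD, fox_crossed]
        rfl
      Dx := fun i => by rw [hD, fox_of]
      δe := hδ1, δmul := hδ2, fe := hf }
  -- homomorphisms out of `G`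
  have hext : ∀ {H : Type} [Group H] (α β : G →* H), (∀ i, α (x i) = β (x i)) → α = β := by
    intro H _ α β h
    apply QuotientGroup.monoidHom_ext
    ext i
    exact h i
  have hendo : ∀ y : ι → G, ∃ α : G →* G, ∀ i, α (x i) = y i := by
    intro y
    refine ⟨QuotientGroup.lift N (FreeGroup.lift y) ?_, fun i => ?_⟩
    · intro w hw
      have := map_derivedSeries_le_derivedSeries (FreeGroup.lift y) (k + 3) ⟨w, hw, rfl⟩
      rw [hbot] at this
      exact this
    · exact FreeGroup.lift_apply_of
  let χ : G →* Multiplicative ℤ := QuotientGroup.lift N (expo a)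
    (fun w hw => derivedSeries_le_ker_char (expo a) (k + 2) hw)
  have hχ : ∀ w, χ (π w) = expo a w := fun w => rfl
  obtain ⟨w, hw, hw'⟩ := exists_not_mem hab hac hbc (k + 2)
  have hkw : kill a w ∈ derivedSeries (FreeGroup ι) (k + 2) :=
    map_derivedSeries_le_derivedSeries (kill a) _ ⟨w, hw, rfl⟩
  have hvR : π (kill a w) ∈ R := (hmemR _).2 hkw
  have hRcomm : ∀ r ∈ R, ∀ r' ∈ R, r * r' = r' * r := by
    intro r hr r' hr'
    rw [← commutatorElement_eq_one_iff_mul_comm, ← mem_bot, ← hbot]
    exact commutator_mem_commutator hr hr'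
  refine P.not_fg hRS hchar χ a ?_ hvR ?_ ?_ ?_ ?_
  · change expo a (FreeGroup.of a) = _
    simp [expo]
  · change D (π (kill a w)) a = 0
    rw [hD]
    have hc := fox_crossed (e.comp π)
    clear hw hw' hkw hvR
    induction w using FreeGroup.induction_on with
    | C1 => simp [hc.one]
    | of j =>
      by_cases hj : j = a
      · simp [kill, hj, hc.one]
      · simp [kill, hj, Ne.symm hj]
    | inv_of j ih =>
      rw [map_inv, hc.inv]
      simp [ih]
    | mul u w ihu ihw =>
      rw [map_mul, hc]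
      simp [ihu, ihw]
  · intro hv
    apply hw'
    have h1 : (⁅R, (⊤ : Subgroup G)⁆ : Subgroup G) =
        (⁅derivedSeries (FreeGroup ι) (k + 2), (⊤ : Subgroup (FreeGroup ι))⁆).map π := by
      rw [map_commutator, hmap, map_top_of_surjective _ hπ]
    have h2 : π (kill a w) ∈
        (⁅derivedSeries (FreeGroup ι) (k + 2), (⊤ : Subgroup (FreeGroup ι))⁆).map π := h1 ▸ hv
    rw [← mem_comap, comap_map_eq, hker, sup_eq_left.2] at h2
    · exact h2
    · exact commutator_mono le_rfl le_top
  · intro f g hf hg h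
    obtain ⟨f, rfl⟩ := hπ f
    obtain ⟨g, rfl⟩ := hπ g
    rw [← map_commutatorElement] at h
    exact (hmemR g).2 (cent (expo a) hf hg k ((hmemR _).1 h))
  · intro n
    set v := π (kill a w) with hv
    have hfix : ∀ α : G →* G, (∀ i, i ≠ a → α (x i) = x i) → α v = v := by
      intro α hα
      have : α.comp (π.comp (kill a)) = π.comp (kill a) := by
        ext i
        by_cases hi : i = a
        · simp [kill, hi]
        · simpa [kill, hi] using hα i hi
      exact DFunLike.congr_fun this w
    have hconj : ∀ α : G →* G, (∀ i, (x i)⁻¹ * α (x i) ∈ R) → ∀ g, ∀ r ∈ R,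
        α g * r * (α g)⁻¹ = g * r * g⁻¹ := by
      intro α hα g r hr
      have h1 : (QuotientGroup.mk' R).comp α = QuotientGroup.mk' R := hext _ _ fun i => by
        symm
        exact QuotientGroup.eq.2 (hα i)
      have h2 : g⁻¹ * α g ∈ R := QuotientGroup.eq.1 (DFunLike.congr_fun h1 g).symm
      have h3 := hRcomm _ h2 r hr
      calc α g * r * (α g)⁻¹ = g * ((g⁻¹ * α g) * r) * (α g)⁻¹ := by group
        _ = g * r * g⁻¹ := by rw [h3]; group
    have hmk : ∀ r ∈ R, ∃ α : G →* G, α (x a) = x a * (x a ^ n * r * (x a ^ n)⁻¹) ∧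
        (∀ i, i ≠ a → α (x i) = x i) ∧ ∀ g, ∀ r ∈ R, α g * r * (α g)⁻¹ = g * r * g⁻¹ := by
      intro r hr
      obtain ⟨α, hα⟩ := hendo (Function.update x a (x a * (x a ^ n * r * (x a ^ n)⁻¹)))
      have h1 : α (x a) = x a * (x a ^ n * r * (x a ^ n)⁻¹) := by simp [hα]
      have h2 : ∀ i, i ≠ a → α (x i) = x i := fun i hi => by simp [hα, hi]
      refine ⟨α, h1, h2, hconj α fun i => ?_⟩
      by_cases hi : i = a
      · rw [hi, h1, inv_mul_cancel_left]
        exact (inferInstance : R.Normal).conj_mem r hr _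
      · rw [h2 i hi, inv_mul_cancel]
        exact one_mem _
    obtain ⟨α, a1, a2, a3⟩ := hmk v hvR
    obtain ⟨β, b1, b2, b3⟩ := hmk v⁻¹ (inv_mem hvR)
    have hαβ : α.comp β = MonoidHom.id G := hext _ _ fun i => by
      by_cases hi : i = a
      · rw [hi, MonoidHom.comp_apply, b1, map_mul, map_mul, map_mul, map_inv, map_inv,
          hfix α a2, a3 _ _ (inv_mem hvR), a1]
        simp [mul_assoc]
      · simp [a2 i hi, b2 i hi]
    have hβα : β.comp α = MonoidHom.id G := hext _ _ fun i => by
      by_cases hi : i = a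
      · rw [hi, MonoidHom.comp_apply, a1, map_mul, map_mul, map_mul, map_inv,
          hfix β b2, b3 _ _ hvR, b1]
        simp [mul_assoc]
      · simp [a2 i hi, b2 i hi]
    exact ⟨MonoidHom.toMulEquiv α β hβα hαβ, a1, a2⟩

end

end Pool.Agent.H73Z.Sol
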