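import Pool.Agent.H73Z.Sol.Tau

/-! The quotient of the integral group ring by the product of two augmentation ideals, its
derivations and endomorphisms, and the logarithmic trace. -/

set_option autoImplicit false
set_option linter.unusedSectionVars false

namespace Pool.Agent.H73Z.Sol

open Subgroup
open scoped commutatorElement

/-- `e : G → Λ` is a model of the group ring modulo the ideal spanned by the
`g (r - 1) (s - 1)` -/
structure IsModel {G Λ : Type} [Group G] [Ring Λ] (R S : Subgroup G) (e : G →* Λ) : Prop where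
  gen : ∀ P : AddSubgroup Λ, (∀ g, e g ∈ P) → ∀ a, a ∈ P
  rel : ∀ r ∈ R, ∀ s ∈ S, (e r - 1) * (e s - 1) = 0
  lift : ∀ (B : Type) [AddCommGroup B] (τ : G → B),
    (∀ g, ∀ r ∈ R, ∀ s ∈ S, τ (g * r * s) - τ (g * r) - τ (g * s) + τ g = 0) →
    ∃ T : Λ →+ B, ∀ g, T (e g) = τ g

section Exists
variable {G : Type} [Group G]

/-- the ideal -/
noncomputable def idl (R S : Subgroup G) : Ideal (MonoidAlgebra ℤ G) :=
  Ideal.span {x | ∃ r ∈ R, ∃ s ∈ S,
    x = (MonoidAlgebra.of ℤ G r - 1) * (MonoidAlgebra.of ℤ G s - 1)}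

lemma alg_gen (P : AddSubgroup (MonoidAlgebra ℤ G)) (h : ∀ g, MonoidAlgebra.of ℤ G g ∈ P)
    (a : MonoidAlgebra ℤ G) : a ∈ P := by
  induction a using MonoidAlgebra.induction_on with
  | of g => exact h g
  | add f g hf hg => exact P.add_mem hf hg
  | smul r f hf => exact P.zsmul_mem hf r

lemma idl_twoSided (R S : Subgroup G) [hR : R.Normal] [hS : S.Normal] :
    (idl R S).IsTwoSided := by
  constructor
  intro a b ha
  induction ha using Submodule.span_induction with
  | mem x hx =>
    obtain ⟨r, hr, s, hs, rfl⟩ := hx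
    refine alg_gen ((idl R S).toAddSubgroup.comap (AddMonoidHom.mulLeft _)) ?_ b
    intro g
    change _ * _ ∈ idl R S
    have : (MonoidAlgebra.of ℤ G r - 1) * (MonoidAlgebra.of ℤ G s - 1) * MonoidAlgebra.of ℤ G g =
        MonoidAlgebra.of ℤ G g * ((MonoidAlgebra.of ℤ G (g⁻¹ * r * g⁻¹⁻¹) - 1) *
          (MonoidAlgebra.of ℤ G (g⁻¹ * s * g⁻¹⁻¹) - 1)) := by
      simp only [mul_sub, sub_mul, mul_one, one_mul, ← map_mul]
      congr 2 <;> congr 1 <;> group
    rw [this]
    exact Ideal.mul_mem_left _ _ (Ideal.subset_span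
      ⟨_, hR.conj_mem r hr g⁻¹, _, hS.conj_mem s hs g⁻¹, rfl⟩)
  | zero => simp
  | add x y _ _ hx hy => rw [add_mul]; exact add_mem hx hy
  | smul c x _ hx => rw [smul_eq_mul, mul_assoc]; exact Ideal.mul_mem_left _ _ hx

lemma exists_model (R S : Subgroup G) [R.Normal] [S.Normal] :
    ∃ (Λ : Type) (_ : Ring Λ) (e : G →* Λ), IsModel R S e := by
  have := idl_twoSided R S
  let π := Ideal.Quotient.mk (idl R S)
  refine ⟨MonoidAlgebra ℤ G ⧸ idl R S, inferInstance,
    (π : MonoidAlgebra ℤ G →* _).comp (MonoidAlgebra.of ℤ G), ?_, ?_, ?_⟩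
  · intro P hP a
    obtain ⟨a, rfl⟩ := Ideal.Quotient.mk_surjective a
    exact alg_gen (P.comap π.toAddMonoidHom) hP a
  · intro r hr s hs
    have : π ((MonoidAlgebra.of ℤ G r - 1) * (MonoidAlgebra.of ℤ G s - 1)) = 0 :=
      Ideal.Quotient.eq_zero_iff_mem.2 (Ideal.subset_span ⟨r, hr, s, hs, rfl⟩)
    simpa using this
  · intro B _ τ hτ
    let T0 : MonoidAlgebra ℤ G →+ B := ((Finsupp.linearCombination ℤ τ).comp
      (MonoidAlgebra.coeffLinearEquiv ℤ).toLinearMap).toAddMonoidHom
    have hT0 : ∀ g, T0 (MonoidAlgebra.of ℤ G g) = τ g := by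
      intro g
      simp [T0]
    have hker : π.toAddMonoidHom.ker ≤ T0.ker := by
      intro a ha
      have ha' : a ∈ idl R S := Ideal.Quotient.eq_zero_iff_mem.1 ha
      have : ∀ c, T0 (c * a) = 0 := by
        clear ha
        induction ha' using Submodule.span_induction with
        | mem x hx =>
          obtain ⟨r, hr, s, hs, rfl⟩ := hx
          intro c
          refine alg_gen (T0.comp (AddMonoidHom.mulRight _)).ker ?_ c
          intro g
          change T0 (_ * _) = 0
          simp only [mul_sub, sub_mul, mul_one, one_mul, ← map_mul, map_sub, hT0]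
          rw [← hτ g r hr s hs, mul_assoc]
          abel
        | zero => simp
        | add x y _ _ hx hy => intro c; rw [mul_add, map_add, hx, hy, add_zero]
        | smul d x _ hx => intro c; rw [smul_eq_mul, ← mul_assoc, hx]
      simpa using this 1
    refine ⟨π.toAddMonoidHom.liftOfSurjective Ideal.Quotient.mk_surjective ⟨T0, hker⟩, ?_⟩
    intro g
    rw [← hT0]
    exact AddMonoidHom.liftOfRightInverse_comp_apply _ _ _ _ _

end Exists

namespace IsModel
variable {G Λ : Type} [Group G] [Ring Λ] {R S : Subgroup G} {e : G →* Λ}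

lemma ind (h : IsModel R S e) {p : Λ → Prop} (he : ∀ g, p (e g)) (h0 : p 0)
    (hadd : ∀ a b, p a → p b → p (a + b)) (hneg : ∀ a, p a → p (-a)) (a : Λ) : p a :=
  h.gen ⟨⟨⟨{a | p a}, fun ha hb => hadd _ _ ha hb⟩, h0⟩, fun ha => hneg _ ha⟩ he a

lemma hom_ext (h : IsModel R S e) {B : Type} [AddCommGroup B] {T T' : Λ →+ B}
    (hT : ∀ g, T (e g) = T' (e g)) : T = T' := by
  ext a
  exact h.gen (T.eqLocus T') hT a

lemma rel' (h : IsModel R S e) (g : G) {r s : G} (hr : r ∈ R) (hs : s ∈ S) :
    e (g * r * s) - e (g * r) - e (g * s) + e g = 0 := by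
  have : e (g * r * s) - e (g * r) - e (g * s) + e g = e g * ((e r - 1) * (e s - 1)) := by
    simp only [map_mul]
    noncomm_ring
  rw [this, h.rel r hr s hs, mul_zero]

lemma exists_delta (h : IsModel R S e) (χ : G →* Multiplicative ℤ) (hR : R ≤ χ.ker)
    (hS : S ≤ χ.ker) : ∃ δ : Λ →+ Λ, (∀ g, δ (e g) = (χ g).toAdd • e g) ∧
      ∀ a b, δ (a * b) = δ a * b + a * δ b := by
  obtain ⟨δ, hδ⟩ := h.lift Λ (fun g => (χ g).toAdd • e g) (by
    intro g r hr s hs
    have h1 : χ r = 1 := hR hr
    have h2 : χ s = 1 := hS hs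
    simp only [map_mul χ, h1, h2, mul_one, ← smul_sub, ← smul_add]
    rw [h.rel' g hr hs, smul_zero])
  refine ⟨δ, hδ, fun a b => ?_⟩
  induction a using h.ind with
  | he g =>
    induction b using h.ind with
    | he g' =>
      rw [← map_mul, hδ, hδ, hδ, map_mul χ, map_mul e, toAdd_mul, add_smul, smul_mul_assoc,
        mul_smul_comm]
    | h0 => simp
    | hadd a b ha hb =>
      simp only [mul_add, map_add, ha, hb]
      abel
    | hneg a ha =>
      simp only [mul_neg, map_neg, ha]
      abel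
  | h0 => simp
  | hadd a a' ha ha' =>
    simp only [add_mul, map_add, ha, ha']
    abel
  | hneg a ha =>
    simp only [neg_mul, map_neg, ha]
    abel

lemma exists_map (h : IsModel R S e) (φ : G →* G) (hR : ∀ r ∈ R, φ r ∈ R)
    (hS : ∀ s ∈ S, φ s ∈ S) : ∃ f : Λ →+* Λ, ∀ g, f (e g) = e (φ g) := by
  obtain ⟨f, hf⟩ := h.lift Λ (fun g => e (φ g)) (by
    intro g r hr s hs
    simp only [map_mul φ]
    exact h.rel' (φ g) (hR r hr) (hS s hs))
  have hmul : ∀ a b, f (a * b) = f a * f b := by
    intro a b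
    induction a using h.ind with
    | he g =>
      induction b using h.ind with
      | he g' => rw [← map_mul, hf, hf, hf, map_mul, map_mul]
      | h0 => simp
      | hadd a b ha hb => simp only [mul_add, map_add, ha, hb]
      | hneg a ha => simp only [mul_neg, map_neg, ha]
    | h0 => simp
    | hadd a a' ha ha' => simp only [add_mul, map_add, ha, ha']
    | hneg a ha => simp only [neg_mul, map_neg, ha]
  refine ⟨{ f with map_one' := ?_, map_mul' := hmul }, hf⟩
  have := hf 1
  simpa using this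

lemma sandwich (h : IsModel R S e) [hS : S.Normal] {r s : G} (hr : r ∈ R) (hs : s ∈ S) (a : Λ) :
    (1 - e r) * a * (1 - e s) = 0 := by
  induction a using h.ind with
  | he g =>
    have h1 := h.rel r hr _ (hS.conj_mem s hs g)
    have h2 : (1 - e r) * e g * (1 - e s) = (e r - 1) * (e (g * s * g⁻¹) - 1) * e g := by
      have : e (g * s * g⁻¹) * e g = e g * e s := by simp [← map_mul]
      rw [mul_assoc (e r - 1), sub_mul (e (g * s * g⁻¹)), this]
      noncomm_ring
    rw [h2, h1, zero_mul]
  | h0 => simp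
  | hadd a b ha hb => rw [mul_add, add_mul, ha, hb, add_zero]
  | hneg a ha => rw [mul_neg, neg_mul, ha, neg_zero]

end IsModel

end Pool.Agent.H73Z.Sol
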