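import Pool.Agent.H73Z.Sol.Cent

/-! The class function used to detect the trace, and nontriviality of `R / [R, F]`. -/

set_option autoImplicit false
set_option linter.unusedSectionVars false

namespace Pool.Agent.H73Z.Sol

open Subgroup
open scoped commutatorElement

section Tau
variable {Γ : Type} [Group Γ]

lemma comm_of_central (Z : Subgroup Γ) [Z.Normal] (hZ : Z ≤ center Γ)
    (χ : Γ →* Multiplicative ℤ)
    (hc : ∀ f g, χ f ≠ 1 → χ g = 1 → ⁅f, g⁆ ∈ Z → g ∈ Z) {f h : Γ} (hf : χ f ≠ 1)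
    (hh : ⁅f, h⁆ ∈ Z) : f * h = h * f := by
  let C : Subgroup Γ := (centralizer {(f : Γ ⧸ Z)}).comap (QuotientGroup.mk' Z)
  have hC : ∀ g, g ∈ C ↔ ⁅f, g⁆ ∈ Z := by
    intro g
    rw [← QuotientGroup.eq_one_iff ⁅f, g⁆]
    change _ ↔ QuotientGroup.mk' Z ⁅f, g⁆ = 1
    rw [map_commutatorElement, commutatorElement_eq_one_iff_mul_comm]
    simp [C, mem_centralizer_iff]
  have hker : (χ.comp C.subtype).ker ≤ center C := by
    intro g hg
    have h1 : (g : Γ) ∈ Z := hc f g hf hg ((hC g).1 g.2)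
    rw [mem_center_iff]
    intro x
    ext
    exact (mem_center_iff.1 (hZ h1)) x
  have hcomm := (χ.comp C.subtype).isMulCommutative_of_isCyclic_of_ker_le_center hker
  have hfC : f ∈ C := (hC f).2 (by simp)
  have := hcomm.is_comm.comm ⟨f, hfC⟩ ⟨h, (hC h).2 hh⟩
  exact congrArg Subtype.val this

lemma exists_tau_central (Z : Subgroup Γ) [Z.Normal] (hZ : Z ≤ center Γ)
    (χ : Γ →* Multiplicative ℤ) (hχ : Z ≤ χ.ker)
    (hc : ∀ f g, χ f ≠ 1 → χ g = 1 → ⁅f, g⁆ ∈ Z → g ∈ Z) :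
    ∃ τ : Γ → center Γ, (∀ z (hz : z ∈ Z) f, χ f ≠ 1 → τ (z * f) = ⟨z, hZ hz⟩ * τ f) ∧
      (∀ h f, χ f ≠ 1 → τ (h * f * h⁻¹) = τ f) := by
  classical
  let rep : Γ → Γ := fun f => ((ConjClasses.mk (f : Γ ⧸ Z)).out).out
  have hex : ∀ f, ∃ z ∈ Z, ∃ g, f = z * (g * rep f * g⁻¹) := by
    intro f
    have h1 : IsConj ((ConjClasses.mk (f : Γ ⧸ Z)).out) (f : Γ ⧸ Z) := by
      rw [← ConjClasses.mk_eq_mk_iff_isConj]
      exact Quotient.out_eq _
    obtain ⟨c, hc⟩ := isConj_iff.1 h1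
    obtain ⟨g, rfl⟩ := QuotientGroup.mk_surjective c
    refine ⟨f * (g * rep f * g⁻¹)⁻¹, ?_, g, by group⟩
    rw [← QuotientGroup.eq_one_iff]
    simp only [QuotientGroup.mk_mul, QuotientGroup.mk_inv, rep, QuotientGroup.out_eq']
    rw [hc]
    simp
  choose z hz g hg using hex
  have huniq : ∀ f, χ f ≠ 1 → ∀ z' ∈ Z, ∀ g', f = z' * (g' * rep f * g'⁻¹) → z f = z' := by
    intro f hf z' hz' g' hg'
    have hr : χ (rep f) ≠ 1 := by
      intro h1
      apply hf
      rw [hg f]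
      have : χ (z f) = 1 := hχ (hz f)
      simp [h1, this]
    have c1 := mem_center_iff.1 (hZ (hz f))
    have c2 := mem_center_iff.1 (hZ hz')
    have e1 : z f * (g f * rep f * (g f)⁻¹) = z' * (g' * rep f * g'⁻¹) := by rw [← hg f, ← hg']
    have e2 : ⁅rep f, g'⁻¹ * g f⁆ = z'⁻¹ * z f := by
      have e3 : g f * rep f * (g f)⁻¹ = (z f)⁻¹ * z' * (g' * rep f * g'⁻¹) := by
        rw [mul_assoc ((z f)⁻¹), ← e1]
        group
      have c3 := mem_center_iff.1 (hZ (Z.mul_mem (Z.inv_mem (hz f)) hz'))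
      have e4 : (g'⁻¹ * g f) * rep f * (g'⁻¹ * g f)⁻¹ = (z f)⁻¹ * z' * rep f := by
        calc (g'⁻¹ * g f) * rep f * (g'⁻¹ * g f)⁻¹
            = g'⁻¹ * (g f * rep f * (g f)⁻¹) * g' := by group
          _ = (g'⁻¹ * ((z f)⁻¹ * z')) * (g' * rep f) := by rw [e3]; group
          _ = (z f)⁻¹ * z' * rep f := by rw [c3]; group
      calc ⁅rep f, g'⁻¹ * g f⁆
          = rep f * ((g'⁻¹ * g f) * rep f * (g'⁻¹ * g f)⁻¹)⁻¹ := by
            rw [commutatorElement_def]; group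
        _ = z'⁻¹ * z f := by rw [e4]; group
    have e5 := comm_of_central Z hZ χ hc hr (h := g'⁻¹ * g f)
      (by rw [e2]; exact Z.mul_mem (Z.inv_mem hz') (hz f))
    rw [← commutatorElement_eq_one_iff_mul_comm, e2, inv_mul_eq_one] at e5
    exact e5.symm
  refine ⟨fun f => ⟨z f, hZ (hz f)⟩, ?_, ?_⟩
  · intro y hy f hf
    have h1 : rep (y * f) = rep f := by
      simp only [rep, QuotientGroup.mk_mul, (QuotientGroup.eq_one_iff y).2 hy, one_mul]
    have h2 : χ (y * f) ≠ 1 := by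
      have : χ y = 1 := hχ hy
      simpa [this] using hf
    ext
    exact huniq _ h2 (y * z f) (Z.mul_mem hy (hz f)) (g f) (by
      rw [h1, mul_assoc y (z f), ← hg f])
  · intro h f hf
    have h1 : rep (h * f * h⁻¹) = rep f := by
      have : ConjClasses.mk ((h * f * h⁻¹ : Γ) : Γ ⧸ Z) = ConjClasses.mk (f : Γ ⧸ Z) := by
        rw [ConjClasses.mk_eq_mk_iff_isConj]
        exact (isConj_iff.2 ⟨(h : Γ ⧸ Z), by simp⟩ : IsConj (f : Γ ⧸ Z) _).symm
      simp only [rep, this]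
    have h2 : χ (h * f * h⁻¹) ≠ 1 := by simpa using hf
    ext
    refine huniq _ h2 _ (hz f) (h * g f) ?_
    rw [h1]
    have c1 := mem_center_iff.1 (hZ (hz f))
    calc h * f * h⁻¹ = h * (z f * (g f * rep f * (g f)⁻¹)) * h⁻¹ := by rw [← hg f]
      _ = (h * z f) * (g f * rep f * (g f)⁻¹) * h⁻¹ := by group
      _ = _ := by rw [c1]; group

open scoped IsMulCommutative in
lemma exists_tau {G : Type} [Group G] (R : Subgroup G) [R.Normal]
    (χ : G →* Multiplicative ℤ) (hχ : R ≤ χ.ker)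
    (hc : ∀ f g, χ f ≠ 1 → χ g = 1 → ⁅f, g⁆ ∈ R → g ∈ R) :
    ∃ (A : Type) (_ : AddCommGroup A) (τ lam : G → A),
      (∀ r ∈ R, ∀ f, χ f ≠ 1 → τ (r * f) = lam r + τ f) ∧
      (∀ h f, χ f ≠ 1 → τ (h * f * h⁻¹) = τ f) ∧ (∀ r ∈ R, lam r = 0 → r ∈ ⁅R, (⊤ : Subgroup G)⁆) := by
  classical
  let N : Subgroup G := ⁅R, ⊤⁆
  have hNR : N ≤ R := commutator_le_left _ _
  let π := QuotientGroup.mk' N
  let Z : Subgroup (G ⧸ N) := R.map π
  have : Z.Normal := Normal.map inferInstance _ (QuotientGroup.mk'_surjective N)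
  have hmem : ∀ g : G, π g ∈ Z ↔ g ∈ R := by
    intro g
    rw [← mem_comap, comap_map_eq, QuotientGroup.ker_mk', sup_eq_left.2 hNR]
  have hZ : Z ≤ center (G ⧸ N) := by
    rintro _ ⟨r, hr, rfl⟩
    rw [mem_center_iff]
    intro x
    obtain ⟨g, rfl⟩ := QuotientGroup.mk'_surjective N x
    symm
    rw [← commutatorElement_eq_one_iff_mul_comm, ← map_commutatorElement]
    exact (QuotientGroup.eq_one_iff _).2 (commutator_mem_commutator hr (mem_top _))
  let χ' : G ⧸ N →* Multiplicative ℤ := QuotientGroup.lift N χ (fun g hg => hχ (hNR hg))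
  have hχ' : ∀ g, χ' (π g) = χ g := fun g => rfl
  obtain ⟨τ, h1, h2⟩ := exists_tau_central Z hZ χ' (by
    rintro _ ⟨r, hr, rfl⟩
    exact hχ hr) (by
    intro f g hf hg h
    obtain ⟨f, rfl⟩ := QuotientGroup.mk'_surjective N f
    obtain ⟨g, rfl⟩ := QuotientGroup.mk'_surjective N g
    rw [← map_commutatorElement] at h
    exact (hmem g).2 (hc f g hf hg ((hmem _).1 h)))
  refine ⟨Additive (center (G ⧸ N)), inferInstance, fun g => Additive.ofMul (τ (π g)),
    fun r => if h : r ∈ R then Additive.ofMul ⟨π r, hZ ((hmem r).2 h)⟩ else 0, ?_, ?_, ?_⟩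
  · intro r hr f hf
    simp only [hr, dif_pos, map_mul]
    rw [h1 _ ((hmem r).2 hr) _ hf]
    rfl
  · intro h f hf
    simp only [map_mul, map_inv]
    rw [h2 _ _ hf]
  · intro r hr h
    simp only [hr, dif_pos] at h
    have h3 := congrArg (fun x => ((Additive.toMul x : center (G ⧸ N)) : G ⧸ N)) h
    exact (QuotientGroup.eq_one_iff r).1 h3

end Tau

section Nontriv

/-- congruence subgroups of the unit group of a ring -/
def congr2 (B : Type) [Ring B] (j : ℕ) : Subgroup Bˣ where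
  carrier := {g | ∃ X : B, (g : B) = 1 + 2 ^ j • X}
  one_mem' := ⟨0, by simp⟩
  mul_mem' := by
    rintro a b ⟨X, hX⟩ ⟨Y, hY⟩
    refine ⟨X + Y + 2 ^ j • (X * Y), ?_⟩
    rw [Units.val_mul, hX, hY]
    simp only [mul_add, add_mul, one_mul, mul_one, smul_add, smul_mul_assoc, mul_smul_comm]
    abel
  inv_mem' := by
    rintro a ⟨X, hX⟩
    refine ⟨-(X * (a⁻¹ : Bˣ)), ?_⟩
    have h := a.mul_inv
    rw [hX, add_mul, one_mul, smul_mul_assoc] at h
    rw [smul_neg, ← h]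
    abel

lemma congr2_commutator (B : Type) [Ring B] (j : ℕ) :
    ⁅congr2 B j, congr2 B 1⁆ ≤ congr2 B (j + 1) := by
  rw [commutator_le]
  rintro a ⟨X, hX⟩ b ⟨Y, hY⟩
  refine ⟨(X * Y - Y * X) * (a⁻¹ : Bˣ) * (b⁻¹ : Bˣ), ?_⟩
  have h1 : (a : B) * b = b * a + 2 ^ (j + 1) • (X * Y - Y * X) := by
    rw [hX, hY]
    simp only [mul_add, add_mul, one_mul, mul_one, smul_mul_assoc, mul_smul_comm]
    module
  rw [commutatorElement_def]
  simp only [Units.val_mul]
  rw [h1, add_mul, add_mul, smul_mul_assoc, smul_mul_assoc]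
  simp [mul_assoc]

abbrev M2 (R : Type) := Matrix (Fin 2) (Fin 2) R

/-- the first generator -/
def mA : (M2 ℤ)ˣ := ⟨!![1, 2; 0, 1], !![1, -2; 0, 1], by decide, by decide⟩
/-- the second generator -/
def mB : (M2 ℤ)ˣ := ⟨!![1, 0; 2, 1], !![1, 0; -2, 1], by decide, by decide⟩

/-- reduction modulo five -/
def red5 : (M2 ℤ)ˣ →* (M2 (ZMod 5))ˣ :=
  Units.map ((Int.castRingHom (ZMod 5)).mapMatrix : M2 ℤ →+* M2 (ZMod 5)).toMonoidHom

lemma red5_A : red5 mA = ⁅red5 (mB * mA * mA * mA * mA * mB * mB), red5 (mA * mA)⁆ := by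
  rw [commutatorElement_def, eq_mul_inv_iff_mul_eq, eq_mul_inv_iff_mul_eq]
  ext1
  decide

lemma red5_B : red5 mB = ⁅red5 (mA * mA * mA * mB * mB * mB * mA), red5 (mB * mB)⁆ := by
  rw [commutatorElement_def, eq_mul_inv_iff_mul_eq, eq_mul_inv_iff_mul_eq]
  ext1
  decide

lemma red5_ne : red5 mA ≠ 1 := by
  intro h
  have := congrArg Units.val h
  revert this
  decide

lemma eq_one_of_congr2 (g : (M2 ℤ)ˣ) (h : ∀ j, g ∈ congr2 (M2 ℤ) j) : g = 1 := by
  ext a b
  have h1 : ∀ j : ℕ, (2 : ℤ) ^ j ∣ (g : M2 ℤ) a b - (1 : M2 ℤ) a b := by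
    intro j
    obtain ⟨X, hX⟩ := h j
    refine ⟨X a b, ?_⟩
    rw [hX, Matrix.add_apply, Matrix.smul_apply]
    simp
  have h2 : (g : M2 ℤ) a b - (1 : M2 ℤ) a b = 0 := by
    set t := (g : M2 ℤ) a b - (1 : M2 ℤ) a b
    refine Int.eq_zero_of_dvd_of_natAbs_lt_natAbs (h1 t.natAbs) ?_
    rw [Int.natAbs_pow]
    exact Nat.lt_two_pow_self
  simpa [sub_eq_zero] using h2

variable {ι : Type} [DecidableEq ι]

/-- the endomorphism killing one generator -/
def kill (a : ι) : FreeGroup ι →* FreeGroup ι :=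
  FreeGroup.lift fun i => if i = a then 1 else FreeGroup.of i

lemma exists_not_mem {a b c : ι} (hab : b ≠ a) (hac : c ≠ a) (hbc : c ≠ b) (k : ℕ) :
    ∃ w ∈ derivedSeries (FreeGroup ι) k,
      kill a w ∉ ⁅derivedSeries (FreeGroup ι) k, (⊤ : Subgroup (FreeGroup ι))⁆ := by
  by_contra hcon
  push Not at hcon
  let ρ : FreeGroup ι →* (M2 ℤ)ˣ :=
    FreeGroup.lift fun i => if i = b then mA else if i = c then mB else 1
  have hb : ρ (FreeGroup.of b) = mA := by simp [ρ]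
  have hc : ρ (FreeGroup.of c) = mB := by simp [ρ, hbc]
  have hρ : ρ.comp (kill a) = ρ := by
    ext1 i
    by_cases hi : i = a
    · simp [kill, ρ, hi, hab.symm, hac.symm]
    · simp [kill, hi]
  have h1 : (⊤ : Subgroup (FreeGroup ι)).map ρ ≤ congr2 _ 1 := by
    rw [← closure_of, MonoidHom.map_closure, closure_le]
    rintro _ ⟨_, ⟨i, rfl⟩, rfl⟩
    simp only [ρ, FreeGroup.lift_apply_of]
    split_ifs
    · exact ⟨!![0, 1; 0, 0], by decide⟩
    · exact ⟨!![0, 0; 1, 0], by decide⟩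
    · exact one_mem _
  have h2 : ∀ j, (derivedSeries (FreeGroup ι) k).map ρ ≤ congr2 _ j := by
    intro j
    induction j with
    | zero =>
      intro g _
      exact ⟨g - 1, by simp⟩
    | succ j ih =>
      rintro _ ⟨w, hw, rfl⟩
      have h3 : ρ w ∈ (⁅derivedSeries (FreeGroup ι) k, (⊤ : Subgroup (FreeGroup ι))⁆).map ρ :=
        ⟨kill a w, hcon w hw, DFunLike.congr_fun hρ w⟩
      rw [map_commutator] at h3
      exact congr2_commutator _ j (commutator_mono ih h1 h3)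
  let σ := red5.comp ρ
  have h4 : ∀ k, (⊤ : Subgroup (FreeGroup ι)).map σ ≤ (derivedSeries (FreeGroup ι) k).map σ := by
    intro k
    induction k with
    | zero => simp
    | succ k ih =>
      rw [derivedSeries_succ, map_commutator]
      refine le_trans ?_ (commutator_mono ih ih)
      have hA : ∀ g, g ∈ (⊤ : Subgroup (FreeGroup ι)).map ρ →
          red5 g ∈ (⊤ : Subgroup (FreeGroup ι)).map σ := by
        rintro _ ⟨w, -, rfl⟩
        exact ⟨w, mem_top _, rfl⟩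
      have mA' : mA ∈ (⊤ : Subgroup (FreeGroup ι)).map ρ := ⟨_, mem_top _, hb⟩
      have mB' : mB ∈ (⊤ : Subgroup (FreeGroup ι)).map ρ := ⟨_, mem_top _, hc⟩
      conv_lhs => rw [← closure_of, MonoidHom.map_closure]
      rw [closure_le]
      rintro _ ⟨_, ⟨i, rfl⟩, rfl⟩
      simp only [σ, ρ, MonoidHom.comp_apply, FreeGroup.lift_apply_of]
      split_ifs
      · rw [red5_A]
        refine commutator_mem_commutator (hA _ ?_) (hA _ ?_) <;>
          repeat (first | exact mA' | exact mB' | apply mul_mem)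
      · rw [red5_B]
        refine commutator_mem_commutator (hA _ ?_) (hA _ ?_) <;>
          repeat (first | exact mA' | exact mB' | apply mul_mem)
      · simp
  obtain ⟨w, hw, hw'⟩ := h4 k ⟨FreeGroup.of b, mem_top _, rfl⟩
  have h5 : ρ w = 1 := eq_one_of_congr2 _ fun j => h2 j ⟨w, hw, rfl⟩
  apply red5_ne
  rw [← hb]
  change σ _ = 1
  rw [← hw']
  simp [σ, h5]

end Nontriv

end Pool.Agent.H73Z.Sol
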