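import Pool.Agent.H73Z.Sol.Ring

/-! The logarithmic trace of the Jacobian matrix as a crossed homomorphism on the automorphism
group, and the abstract non-finite-generation criterion. -/

set_option autoImplicit false
set_option linter.unusedSectionVars false

namespace Pool.Agent.H73Z.Sol

open Subgroup Filter
open scoped commutatorElement

/-- all the data used in the argument -/
structure Setup (G Λ ι : Type) [Group G] [Ring Λ] [DecidableEq ι] where
  R : Subgroup G
  S : Subgroup G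
  e : G →* Λ
  x : ι → G
  D : G → ι → Λ
  δ : (G →* Multiplicative ℤ) → Λ →+ Λ
  f : MulAut G → Λ →+* Λ
  model : IsModel R S e
  gen : closure (Set.range x) = ⊤
  crossed : Crossed e D
  Dx : ∀ i, D (x i) = Pi.single i 1
  δe : ∀ χ g, δ χ (e g) = (χ g).toAdd • e g
  δmul : ∀ χ a b, δ χ (a * b) = δ χ a * b + a * δ χ b
  fe : ∀ φ g, f φ (e g) = e (φ g)

/-- `g` is nontrivial and divisible by `n`, as seen by the homomorphisms to the integers -/
def Div {G : Type} [Group G] (n : ℕ) (g : G) : Prop :=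
  (∃ χ : G →* Multiplicative ℤ, χ g ≠ 1) ∧ ∀ χ : G →* Multiplicative ℤ, (n : ℤ) ∣ (χ g).toAdd

lemma eventually_not_div {G : Type} [Group G] (g : G) : ∀ᶠ n : ℕ in atTop, ¬ Div n g := by
  by_cases h : ∃ χ : G →* Multiplicative ℤ, χ g ≠ 1
  · obtain ⟨χ, hχ⟩ := h
    filter_upwards [eventually_gt_atTop (χ g).toAdd.natAbs] with n hn
    rintro ⟨-, h2⟩
    apply hχ
    apply Multiplicative.toAdd.injective
    exact Int.eq_zero_of_dvd_of_natAbs_lt_natAbs (h2 χ) (by simpa using hn)
  · exact Eventually.of_forall fun n hn => h hn.1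

lemma div_aut {G : Type} [Group G] {n : ℕ} {g : G} (φ : MulAut G) (h : Div n (φ g)) :
    Div n g := by
  obtain ⟨⟨χ, hχ⟩, h2⟩ := h
  refine ⟨⟨χ.comp φ.toMonoidHom, hχ⟩, fun χ' => ?_⟩
  simpa using h2 (χ'.comp φ.symm.toMonoidHom)

namespace Setup
variable {G Λ ι : Type} [Group G] [Ring Λ] [Fintype ι] [DecidableEq ι] (P : Setup G Λ ι)

/-- the subgroup that is ignored at level `n` -/
def U (n : ℕ) : AddSubgroup Λ :=
  AddSubgroup.closure ({t | ∃ a b : Λ, t = a * b - b * a} ∪ {t | ∃ g, ¬ Div n g ∧ t = P.e g})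

lemma comm_mem (n : ℕ) (a b : Λ) : a * b - b * a ∈ P.U n :=
  AddSubgroup.subset_closure (Or.inl ⟨a, b, rfl⟩)

lemma e_mem {n : ℕ} {g : G} (h : ¬ Div n g) : P.e g ∈ P.U n :=
  AddSubgroup.subset_closure (Or.inr ⟨g, h, rfl⟩)

lemma f_mem {n : ℕ} (φ : MulAut G) {a : Λ} (h : a ∈ P.U n) : P.f φ a ∈ P.U n := by
  have : P.U n ≤ (P.U n).comap (P.f φ).toAddMonoidHom := by
    rw [U, AddSubgroup.closure_le]
    rintro _ (⟨a, b, rfl⟩ | ⟨g, hg, rfl⟩)
    · change P.f φ _ ∈ P.U n
      rw [map_sub, map_mul, map_mul]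
      exact P.comm_mem n _ _
    · change P.f φ _ ∈ P.U n
      rw [P.fe]
      exact P.e_mem fun h => hg (div_aut φ h)
  exact this h

lemma f_mul (φ ψ : MulAut G) (a : Λ) : P.f (φ * ψ) a = P.f φ (P.f ψ a) := by
  have : (P.f (φ * ψ)).toAddMonoidHom = (P.f φ).toAddMonoidHom.comp (P.f ψ).toAddMonoidHom :=
    P.model.hom_ext fun g => by simp [P.fe]
  exact DFunLike.congr_fun this a

lemma f_one (a : Λ) : P.f 1 a = a := by
  have : (P.f 1).toAddMonoidHom = AddMonoidHom.id Λ :=
    P.model.hom_ext fun g => by simp [P.fe]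
  exact DFunLike.congr_fun this a

lemma δ_f (χ : G →* Multiplicative ℤ) (φ : MulAut G) (a : Λ) :
    P.δ χ (P.f φ a) = P.f φ (P.δ (χ.comp φ.toMonoidHom) a) := by
  have : (P.δ χ).comp (P.f φ).toAddMonoidHom =
      (P.f φ).toAddMonoidHom.comp (P.δ (χ.comp φ.toMonoidHom)) :=
    P.model.hom_ext fun g => by simp [P.fe, P.δe, -zsmul_eq_mul]
  exact DFunLike.congr_fun this a

lemma δ_one (χ : G →* Multiplicative ℤ) : P.δ χ 1 = 0 := by
  have := P.δe χ 1
  simpa using this

lemma trace_comm_mem (n : ℕ) (A B : Matrix ι ι Λ) :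
    (A * B).trace - (B * A).trace ∈ P.U n := by
  simp only [Matrix.trace, Matrix.diag, Matrix.mul_apply]
  rw [Finset.sum_comm (f := fun i j => B i j * A j i), ← Finset.sum_sub_distrib]
  refine AddSubgroup.sum_mem _ fun i _ => ?_
  rw [← Finset.sum_sub_distrib]
  exact AddSubgroup.sum_mem _ fun j _ => P.comm_mem n _ _

/-- the Jacobian matrix -/
def J (φ : MulAut G) : Matrix ι ι Λ := Matrix.of fun i j => P.D (φ (P.x i)) j

lemma chain (φ : MulAut G) (w : G) (j : ι) :
    P.D (φ w) j = ∑ k, P.f φ (P.D w k) * P.J φ k j := by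
  have h1 : Crossed (P.e.comp φ.toMonoidHom) (fun w => P.D (φ w)) := by
    intro g h
    simp [P.crossed (φ g) (φ h)]
  have h2 : Crossed (P.e.comp φ.toMonoidHom)
      (fun w j => ∑ k, P.f φ (P.D w k) * P.J φ k j) := by
    intro g h
    funext j
    simp [P.crossed g h, add_mul, Finset.sum_add_distrib, P.fe, Finset.mul_sum, mul_assoc]
  have := h1.ext_of_closure h2 P.gen (by
    rintro _ ⟨i, rfl⟩
    funext j
    simp only [P.Dx]
    rw [Finset.sum_eq_single i]
    · simp [J]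
    · intro k _ hk
      simp [hk]
    · simp) w
  exact congrFun this j

lemma J_mul (φ ψ : MulAut G) : P.J (φ * ψ) = (P.J ψ).map (P.f φ) * P.J φ := by
  ext i j
  simp only [Matrix.mul_apply, Matrix.map_apply]
  exact P.chain φ (ψ (P.x i)) j

lemma J_one : P.J 1 = 1 := by
  ext i j
  simp [J, P.Dx, Matrix.one_apply, Pi.single_apply, eq_comm]

/-- the inverse of the Jacobian matrix -/
def K (φ : MulAut G) : Matrix ι ι Λ := (P.J φ⁻¹).map (P.f φ)

lemma K_mul_J (φ : MulAut G) : P.K φ * P.J φ = 1 := by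
  rw [K, ← J_mul, mul_inv_cancel, J_one]

lemma J_mul_K (φ : MulAut G) : P.J φ * P.K φ = 1 := by
  have h1 : ((P.J φ).map (P.f φ⁻¹)).map (P.f φ) = P.J φ := by
    ext i j
    simp [← P.f_mul, P.f_one]
  have h2 := P.J_mul φ⁻¹ φ
  rw [inv_mul_cancel, J_one] at h2
  rw [K, ← h1, ← Matrix.map_mul, ← h2]
  simp

lemma K_mul (φ ψ : MulAut G) : P.K (φ * ψ) = P.K φ * (P.K ψ).map (P.f φ) := by
  have h1 : P.J (φ * ψ) * (P.K φ * (P.K ψ).map (P.f φ)) = 1 := by
    rw [J_mul, mul_assoc, ← mul_assoc (P.J φ), J_mul_K, one_mul, ← Matrix.map_mul, J_mul_K]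
    simp
  calc P.K (φ * ψ) = P.K (φ * ψ) * (P.J (φ * ψ) * (P.K φ * (P.K ψ).map (P.f φ))) := by
        rw [h1, mul_one]
    _ = _ := by rw [← mul_assoc, K_mul_J, one_mul]

/-- the logarithmic trace -/
def T (χ : G →* Multiplicative ℤ) (φ : MulAut G) : Λ := (P.K φ * (P.J φ).map (P.δ χ)).trace

lemma map_δ_mul (χ : G →* Multiplicative ℤ) (A B : Matrix ι ι Λ) :
    (A * B).map (P.δ χ) = A.map (P.δ χ) * B + A * B.map (P.δ χ) := by
  ext i j
  simp [Matrix.mul_apply, P.δmul, Finset.sum_add_distrib]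

lemma T_mul (n : ℕ) (χ : G →* Multiplicative ℤ) (φ ψ : MulAut G) :
    P.T χ (φ * ψ) - (P.f φ (P.T (χ.comp φ.toMonoidHom) ψ) + P.T χ φ) ∈ P.U n := by
  have h1 : P.f φ (P.T (χ.comp φ.toMonoidHom) ψ) =
      ((P.K ψ).map (P.f φ) * ((P.J ψ).map (P.f φ)).map (P.δ χ)).trace := by
    simp [T, Matrix.trace, Matrix.mul_apply, P.δ_f]
  have h2 : (P.K ψ).map (P.f φ) * (P.J ψ).map (P.f φ) = 1 := by
    rw [← Matrix.map_mul, K_mul_J]
    simp
  have h3 := P.trace_comm_mem n
    (P.K φ * ((P.K ψ).map (P.f φ) * ((P.J ψ).map (P.f φ)).map (P.δ χ))) (P.J φ)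
  rw [← mul_assoc (P.J φ), J_mul_K, one_mul] at h3
  rw [h1, T, T, K_mul, J_mul, map_δ_mul, mul_add, Matrix.trace_add,
    mul_assoc (P.K φ) _ (_ * (P.J φ).map _), ← mul_assoc ((P.K ψ).map _), h2, one_mul]
  convert h3 using 1
  simp only [mul_assoc]
  abel

lemma T_one (χ : G →* Multiplicative ℤ) : P.T χ 1 = 0 := by
  have : (1 : Matrix ι ι Λ).map (P.δ χ) = 0 := by
    ext i j
    by_cases h : i = j <;> simp [h, P.δ_one]
  rw [T, J_one, this]
  simp

/-- the automorphisms whose logarithmic trace is invisible at level `n` -/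
def Gam (n : ℕ) : Subgroup (MulAut G) where
  carrier := {φ | ∀ χ, P.T χ φ ∈ P.U n}
  one_mem' := fun χ => by
    rw [P.T_one]
    exact zero_mem _
  mul_mem' := by
    intro φ ψ hφ hψ χ
    have := (P.U n).add_mem (P.T_mul n χ φ ψ)
      ((P.U n).add_mem (P.f_mem φ (hψ (χ.comp φ.toMonoidHom))) (hφ χ))
    simpa using this
  inv_mem' := by
    intro φ hφ χ
    have h1 := P.T_mul n χ φ⁻¹ φ
    rw [inv_mul_cancel, P.T_one] at h1
    have := (P.U n).sub_mem ((P.U n).neg_mem h1) (P.f_mem φ⁻¹ (hφ (χ.comp φ⁻¹.toMonoidHom)))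
    simpa using this

lemma eventually_mul_δ (a b : Λ) : ∀ᶠ n : ℕ in atTop, ∀ χ, a * P.δ χ b ∈ P.U n := by
  induction a using P.model.ind with
  | he g =>
    induction b using P.model.ind with
    | he h =>
      filter_upwards [eventually_not_div (g * h)] with n hn χ
      rw [P.δe, mul_smul_comm, ← map_mul]
      exact (P.U n).zsmul_mem (P.e_mem hn) _
    | h0 => simp
    | hadd a b ha hb =>
      filter_upwards [ha, hb] with n ha hb χ
      rw [map_add, mul_add]
      exact add_mem (ha χ) (hb χ)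
    | hneg a ha =>
      filter_upwards [ha] with n ha χ
      rw [map_neg, mul_neg]
      exact neg_mem (ha χ)
  | h0 => simp
  | hadd a a' ha ha' =>
    filter_upwards [ha, ha'] with n ha ha' χ
    rw [add_mul]
    exact add_mem (ha χ) (ha' χ)
  | hneg a ha =>
    filter_upwards [ha] with n ha χ
    rw [neg_mul]
    exact neg_mem (ha χ)

lemma eventually_mem_Gam (φ : MulAut G) : ∀ᶠ n : ℕ in atTop, φ ∈ P.Gam n := by
  have : ∀ᶠ n : ℕ in atTop, ∀ i k, ∀ χ, P.K φ i k * P.δ χ (P.J φ k i) ∈ P.U n := by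
    simp only [eventually_all]
    exact fun i k => P.eventually_mul_δ _ _
  filter_upwards [this] with n hn χ
  simp only [T, Matrix.trace, Matrix.diag, Matrix.mul_apply, Matrix.map_apply]
  exact AddSubgroup.sum_mem _ fun i _ => AddSubgroup.sum_mem _ fun k _ => hn i k χ

lemma eventually_Gam_top (h : Group.FG (MulAut G)) : ∀ᶠ n : ℕ in atTop, P.Gam n = ⊤ := by
  obtain ⟨s, hs⟩ := h.out
  have : ∀ᶠ n : ℕ in atTop, ∀ φ ∈ s, φ ∈ P.Gam n :=
    (eventually_all_finset s).2 fun φ _ => P.eventually_mem_Gam φ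
  filter_upwards [this] with n hn
  rw [eq_top_iff, ← hs, closure_le]
  exact hn

lemma D_pow (a : ι) (n : ℕ) : P.D (P.x a ^ n) a = ∑ i ∈ Finset.range n, P.e (P.x a ^ i) := by
  induction n with
  | zero => simp [P.crossed.one]
  | succ n ih =>
    rw [pow_succ, P.crossed, Finset.sum_range_succ, ← ih]
    simp [P.Dx]

lemma T_special [P.R.Normal] [P.S.Normal] (hRS : P.R ≤ P.S) (χ : G →* Multiplicative ℤ)
    (hχR : P.R ≤ χ.ker) (a : ι) (hχ : χ (P.x a) = Multiplicative.ofAdd 1) {v : G} (hv : v ∈ P.R)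
    (hDv : P.D v a = 0) (n : ℕ) (φ : MulAut G)
    (h1 : φ (P.x a) = P.x a * (P.x a ^ n * v * (P.x a ^ n)⁻¹))
    (h2 : ∀ i, i ≠ a → φ (P.x i) = P.x i) :
    P.T χ φ = ∑ i ∈ Finset.range n, ((i : ℤ) + 1) •
      (P.e (P.x a ^ (i + 1)) - P.e (P.x a * (P.x a ^ n * v * (P.x a ^ n)⁻¹) * P.x a ^ i)) := by
  set u := P.x a ^ n * v * (P.x a ^ n)⁻¹ with hu
  have huR : u ∈ P.R := (inferInstance : P.R.Normal).conj_mem v hv _
  set c := P.D (P.x a ^ n) a with hc
  set m := P.e (P.x a) * (1 - P.e u) * c with hm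
  have hJ : ∀ i, i ≠ a → ∀ j, P.J φ i j = (1 : Matrix ι ι Λ) i j := by
    intro i hi j
    simp [J, h2 i hi, P.Dx, Matrix.one_apply, Pi.single_apply, eq_comm]
  have hJa : P.J φ a a = 1 + m := by
    simp only [J, Matrix.of_apply, h1]
    rw [P.crossed, hu, P.crossed, P.crossed, P.crossed.inv]
    simp only [P.Dx, Pi.add_apply, Pi.smul_apply, Pi.neg_apply, Pi.single_eq_same, hDv,
      smul_eq_mul, mul_zero, add_zero, ← hc, hm, mul_neg, ← mul_assoc, ← map_mul, ← hu]
    rw [map_mul]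
    noncomm_ring
  have hK : ∀ i, i ≠ a → P.K φ i a = 0 := by
    intro i hi
    have := congrFun (congrFun (P.J_mul_K φ) i) a
    rw [Matrix.mul_apply, Finset.sum_eq_single i] at this
    · simpa [hJ i hi, hi] using this
    · intro k _ hk
      simp [hJ i hi, Ne.symm hk]
    · simp
  have hKa : P.K φ a a * (1 + m) = 1 := by
    have := congrFun (congrFun (P.K_mul_J φ) a) a
    rw [Matrix.mul_apply, Finset.sum_eq_single a] at this
    · simpa [hJa] using this
    · intro k _ hk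
      simp [hJ k hk, hk]
    · simp
  have hδu : P.δ χ (1 - P.e u) = 0 := by
    have : χ u = 1 := hχR huR
    rw [map_sub, P.δ_one, P.δe, this]
    simp
  have hδm : P.δ χ m = P.e (P.x a) * (1 - P.e u) * (c + P.δ χ c) := by
    rw [hm, P.δmul, P.δmul, hδu, P.δe, hχ]
    simp [mul_add]
  have hmm : m * P.δ χ m = 0 := by
    have := P.model.sandwich huR (hRS huR) (c * P.e (P.x a))
    calc m * P.δ χ m = P.e (P.x a) * ((1 - P.e u) * (c * P.e (P.x a)) * (1 - P.e u)) *
          (c + P.δ χ c) := by rw [hδm, hm]; noncomm_ring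
      _ = 0 := by rw [this]; simp
  have hT : P.T χ φ = P.δ χ m := by
    simp only [T, Matrix.trace, Matrix.diag, Matrix.mul_apply, Matrix.map_apply]
    have h3 : ∀ i, ∑ k, P.K φ i k * P.δ χ (P.J φ k i) = P.K φ i a * P.δ χ (P.J φ a i) := by
      intro i
      rw [Finset.sum_eq_single a]
      · intro k _ hk
        rw [hJ k hk]
        by_cases h : k = i <;> simp [Matrix.one_apply, h, P.δ_one]
      · simp
    simp only [h3]
    rw [Finset.sum_eq_single a]
    · rw [hJa, map_add, P.δ_one, zero_add]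
      calc P.K φ a a * P.δ χ m = P.K φ a a * (1 + m) * P.δ χ m := by
            rw [mul_assoc, add_mul, hmm]; simp
        _ = _ := by rw [hKa, one_mul]
    · intro i _ hi
      rw [hK i hi, zero_mul]
    · simp
  rw [hT, hδm, hc, D_pow, map_sum, ← Finset.sum_add_distrib, Finset.mul_sum]
  refine Finset.sum_congr rfl fun i _ => ?_
  have h4 : (χ (P.x a ^ i)).toAdd = i := by simp [hχ]
  have h5 : P.e (P.x a ^ i) + (i : ℤ) • P.e (P.x a ^ i) = ((i : ℤ) + 1) • P.e (P.x a ^ i) := by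
    rw [add_smul, one_smul, add_comm]
  rw [P.δe, h4, h5, mul_smul_comm, pow_succ', map_mul P.e (P.x a) (P.x a ^ i),
    map_mul P.e (P.x a * u), map_mul P.e (P.x a) u]
  congr 1
  noncomm_ring

theorem not_fg [P.R.Normal] [P.S.Normal] (hRS : P.R ≤ P.S)
    (hS : ∀ χ : G →* Multiplicative ℤ, P.S ≤ χ.ker) (χ : G →* Multiplicative ℤ)
    (a : ι) (hχ : χ (P.x a) = Multiplicative.ofAdd 1) {v : G} (hv : v ∈ P.R)
    (hDv : P.D v a = 0) (hv' : v ∉ ⁅P.R, (⊤ : Subgroup G)⁆)
    (hc : ∀ f g, χ f ≠ 1 → χ g = 1 → ⁅f, g⁆ ∈ P.R → g ∈ P.R)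
    (hφ : ∀ n : ℕ, ∃ φ : MulAut G, φ (P.x a) = P.x a * (P.x a ^ n * v * (P.x a ^ n)⁻¹) ∧
      ∀ i, i ≠ a → φ (P.x i) = P.x i) : ¬ Group.FG (MulAut G) := by
  classical
  intro hfg
  have hR : ∀ χ : G →* Multiplicative ℤ, P.R ≤ χ.ker := fun χ => hRS.trans (hS χ)
  obtain ⟨A, _, τ, lam, t1, t2, t3⟩ := exists_tau P.R χ (hR χ) hc
  have key : ∀ n : ℕ, P.Gam (n + 1) = ⊤ → ((n : ℤ) + 1) • lam v = 0 := by
    intro n hn
    let B : G → Prop := fun g => ∀ χ' : G →* Multiplicative ℤ, χ' g = χ' (P.x a ^ (n + 1))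
    have hB : ∀ g, B g → χ g ≠ 1 := by
      intro g hg h
      have := congrArg Multiplicative.toAdd ((hg χ).symm.trans h)
      simp [hχ] at this
      omega
    let τ' : G → A := fun g => if B g then τ g else 0
    have hBcongr : ∀ g h, (∀ χ' : G →* Multiplicative ℤ, χ' g = χ' h) → (B g ↔ B h) := by
      intro g h hgh
      simp only [B, hgh]
    have t2' : ∀ h f, τ' (h * f * h⁻¹) = τ' f := by
      intro h f
      have := hBcongr (h * f * h⁻¹) f (by simp)
      by_cases hf : B f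
      · simp only [τ', this, hf, if_true]
        exact t2 h f (hB f hf)
      · simp only [τ', this, hf, if_false]
    obtain ⟨L, hL⟩ := P.model.lift A τ' (by
      intro g r hr s hs
      have hr1 : ∀ χ' : G →* Multiplicative ℤ, χ' r = 1 := fun χ' => hR χ' hr
      have hs1 : ∀ χ' : G →* Multiplicative ℤ, χ' s = 1 := fun χ' => hS χ' hs
      have b1 := hBcongr (g * r * s) g (by simp [hr1, hs1])
      have b2 := hBcongr (g * r) g (by simp [hr1])
      have b3 := hBcongr (g * s) g (by simp [hs1])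
      by_cases hg : B g
      · simp only [τ', b1, b2, b3, hg, if_true]
        have hr' := (inferInstance : P.R.Normal).conj_mem r hr g
        have e1 : g * r * s = g * r * g⁻¹ * (g * s) := by group
        have e2 : g * r = g * r * g⁻¹ * g := by group
        rw [e1, t1 _ hr' _ (hB _ (b3.2 hg))]
        conv_lhs => enter [1, 1, 2]; rw [e2, t1 _ hr' _ (hB _ hg)]
        abel
      · simp [τ', b1, b2, b3, hg])
    have hLU : P.U (n + 1) ≤ L.ker := by
      rw [U, AddSubgroup.closure_le]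
      rintro _ (⟨p, q, rfl⟩ | ⟨g, hg, rfl⟩)
      · change L _ = 0
        rw [map_sub, sub_eq_zero]
        induction p using P.model.ind with
        | he g =>
          induction q using P.model.ind with
          | he h =>
            rw [← map_mul, ← map_mul, hL, hL, ← t2' h (g * h)]
            congr 1
            group
          | h0 => simp
          | hadd p q hp hq => simp only [mul_add, add_mul, map_add, hp, hq]
          | hneg p hp => simp only [mul_neg, neg_mul, map_neg, hp]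
        | h0 => simp
        | hadd p p' hp hp' => simp only [mul_add, add_mul, map_add, hp, hp']
        | hneg p hp => simp only [mul_neg, neg_mul, map_neg, hp]
      · change L _ = 0
        rw [hL]
        have : ¬ B g := by
          intro hb
          refine hg ⟨⟨χ, hB g hb⟩, fun χ' => ?_⟩
          rw [hb χ']
          simp
        simp [τ', this]
    obtain ⟨φ, p1, p2⟩ := hφ (n + 1)
    have hmem : φ ∈ P.Gam (n + 1) := hn ▸ mem_top φ
    have h0 : L (P.T χ φ) = 0 := hLU (hmem χ)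
    rw [P.T_special hRS χ (hR χ) a hχ hv hDv (n + 1) φ p1 p2, map_sum,
      Finset.sum_range_succ, Finset.sum_eq_zero] at h0
    · have hv1 : ∀ χ' : G →* Multiplicative ℤ, χ' v = 1 := fun χ' => hR χ' hv
      have e1 : P.x a * (P.x a ^ (n + 1) * v * (P.x a ^ (n + 1))⁻¹) * P.x a ^ n =
          (P.x a ^ (n + 2)) * (v * P.x a ^ (n + 1)) * (P.x a ^ (n + 2))⁻¹ := by group
      have b0 : B (P.x a ^ (n + 1)) := fun _ => rfl
      have b1 : B (v * P.x a ^ (n + 1)) := fun χ' => by rw [map_mul, hv1, one_mul]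
      rw [map_zsmul, map_sub, hL, hL, e1, t2'] at h0
      simp only [τ', b0, b1, if_true] at h0
      rw [t1 v hv _ (hB _ b0)] at h0
      simpa using h0
    · intro i hi
      have hi' := Finset.mem_range.1 hi
      have hv1 : χ v = 1 := hR χ hv
      have b0 : ¬ B (P.x a ^ (i + 1)) := by
        intro hb
        have := congrArg Multiplicative.toAdd (hb χ)
        simp [hχ] at this
        omega
      have b1 : ¬ B (P.x a * (P.x a ^ (n + 1) * v * (P.x a ^ (n + 1))⁻¹) * P.x a ^ i) := by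
        intro hb
        have := congrArg Multiplicative.toAdd (hb χ)
        simp [hχ, hv1] at this
        omega
      rw [map_zsmul, map_sub, hL, hL]
      simp [τ', b0, b1]
  obtain ⟨N, hN⟩ := eventually_atTop.1 (P.eventually_Gam_top hfg)
  have k1 := key N (hN _ (by omega))
  have k2 := key (N + 1) (hN _ (by omega))
  apply hv'
  apply t3 v hv
  push_cast at k2
  rw [add_smul, k1] at k2
  simpa using k2

end Setup

end Pool.Agent.H73Z.Sol
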